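import Pool.Agent.H81U.Fin
import Pool.Agent.H81U.Dens

/-!
# MP_1a637f_co: the diamondicity is at most `n - n / log₂ gcd(n, aⁿ)`

Let `v` be a nontrivial universal partial word for the words of length `n` over `a ≥ 2` letters with
well-defined diamondicity `d`, and `p = gcd(n, a ^ (n - d))`. We prove that the pattern of the diamonds has the
period `p`, with `m` letters per period, `0 < m < p`, and
`2 ^ (p - 1) ≤ p ^ (m - 1)`.
Hence `p ≥ 4` and `d ≤ n - n / log₂ gcd(n, aⁿ) ≤ n - n / log₂ n` (known: `d < n - √(n - 7/4) - 1/2`). In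
particular `d ≤ (1 - 1 / log₂ S) n` for all `n` with `gcd(n, aⁿ) ≤ S`, and so, for every `η > 0`, the
linear bound asked for in the problem holds for all `n` outside a set of density at most `η`.

Proof. (1) Counting the windows which cover `x y` for the letters `x`, and those which cover `y x`, one gets that
the first and the last `n - 1` characters of `v` coincide; there are `L = a ^ (n - d) > n` windows, so `v` is a cyclic
word of length `L`, and the pattern of the diamonds has the periods `n` and `L`, so `p = gcd(n, L)`. (2) The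
windows which start in a class `i` modulo `p` have the letters at the same offsets `U i`; let `F i` be the set of
their letters, with `L / p` elements. For `i ≠ j` the restrictions of `F i` and `F j` to `K = U i ∩ U j` are disjoint
(otherwise a word would be covered twice), so the product of their cardinalities is at most
`(a ^ |K| / 2) ^ 2`. (3) Every offset in `U i` is in `U j` for exactly `m - 1` classes `j ≠ i`, so by Shearer's lemma
`(L / p) ^ (m - 1)` is at most the product over `j ≠ i` of the numbers of the restrictions of `F i` to `U i ∩ U j`. The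
product over all the pairs is the inequality.
-/

set_option autoImplicit false

namespace Pool.Agent.Results.MP_1a637f_co.NearlyLinear

/-- The partial word `v` (`none` is the diamond) covers the word `u` at position `i`: the block of `n`
characters of `v` starting at position `i` exists and each of its characters is a diamond or the
corresponding letter of `u`. -/
def CoversAt {a n : ℕ} (v : List (Option (Fin a))) (u : Fin n → Fin a) (i : ℕ) : Prop :=
  i + n ≤ v.length ∧ ∀ j : Fin n, v[i + j.val]? = some none ∨ v[i + j.val]? = some (some (u j))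

/-- `v` is a universal partial word for the words of length `n`: it covers each of them exactly once. -/
def IsUniversal {a : ℕ} (n : ℕ) (v : List (Option (Fin a))) : Prop :=
  ∀ u : Fin n → Fin a, ∃! i : ℕ, CoversAt v u i

/-- `v` is non-trivial: it contains a diamond and is not the word of `n` diamonds. -/
def IsNontrivial {a : ℕ} (n : ℕ) (v : List (Option (Fin a))) : Prop :=
  none ∈ v ∧ v ≠ List.replicate n none

/-- Every window of length `n` of `v` has exactly `d` diamonds. -/
def HasDiamondicity {a : ℕ} (n d : ℕ) (v : List (Option (Fin a))) : Prop :=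
  ∀ i : ℕ, i + n ≤ v.length →
    (Finset.univ.filter fun j : Fin n => v[i + j.val]? = some none).card = d

/-- `n` violates the bound `d ≤ ε n`: some non-trivial universal partial word for the words of length `n`
over `a` letters has a well-defined diamondicity `d > ε n`. -/
def Violates (a : ℕ) (ε : ℝ) (n : ℕ) : Prop :=
  ∃ (d : ℕ) (v : List (Option (Fin a))), IsUniversal n v ∧ IsNontrivial n v ∧
    HasDiamondicity n d v ∧ ε * n < d

open Classical in
/-- Let `a ≥ 2`. (1) For a non-trivial universal partial word for the words of length `n` over `a` letters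
with well-defined diamondicity `d` put `p = gcd(n, a ^ (n - d))`. Then `p ≥ 4`, there is `m` with `0 < m < p`,
`(n - d) p = m n` and `2 ^ (p - 1) ≤ p ^ (m - 1)`, and `d ≤ n - n / log₂ gcd(n, aⁿ)`. (2) For every `η > 0` there is
`ε < 1` such that the bound `d ≤ ε n` is violated by at most `η X` of the numbers `n ≤ X`, for every `X`. -/
theorem result (a : ℕ) (ha : 2 ≤ a) :
    (∀ (n d : ℕ) (v : List (Option (Fin a))), IsUniversal n v → IsNontrivial n v →
      HasDiamondicity n d v →
      4 ≤ n.gcd (a ^ (n - d)) ∧
      (∃ m : ℕ, 0 < m ∧ m < n.gcd (a ^ (n - d)) ∧ (n - d) * n.gcd (a ^ (n - d)) = m * n ∧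
        2 ^ (n.gcd (a ^ (n - d)) - 1) ≤ n.gcd (a ^ (n - d)) ^ (m - 1)) ∧
      (d : ℝ) ≤ n - n / Real.logb 2 (n.gcd (a ^ n) : ℕ)) ∧
    ∀ η : ℝ, 0 < η → ∃ ε : ℝ, 0 < ε ∧ ε < 1 ∧ ∀ X : ℕ,
      (((Finset.Icc 1 X).filter fun n => Violates a ε n).card : ℝ) ≤ η * X := by
  have key : ∀ (n d : ℕ) (v : List (Option (Fin a))), IsUniversal n v → IsNontrivial n v →
      HasDiamondicity n d v → 0 < n ∧
      4 ≤ n.gcd (a ^ (n - d)) ∧
      (∃ m : ℕ, 0 < m ∧ m < n.gcd (a ^ (n - d)) ∧ (n - d) * n.gcd (a ^ (n - d)) = m * n ∧
        2 ^ (n.gcd (a ^ (n - d)) - 1) ≤ n.gcd (a ^ (n - d)) ^ (m - 1)) ∧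
      ∀ G : ℕ, n.gcd (a ^ (n - d)) ≤ G → (d : ℝ) ≤ n - n / Real.logb 2 G := by
    intro n d v hU hN hD
    obtain ⟨h1, h2, h3, m, h4, h5, h6, h7⟩ := Pool.Agent.H81U.list_bound ha hU hN hD
    exact ⟨h1, (Pool.Agent.H81U.real_bound h4 h5 h1 h3 h6 h7 le_rfl).1, ⟨m, h4, h5, h6, h7⟩,
      fun G hG => (Pool.Agent.H81U.real_bound h4 h5 h1 h3 h6 h7 hG).2⟩
  have hG : ∀ n d : ℕ, 0 < n → n.gcd (a ^ (n - d)) ≤ n.gcd (a ^ n) := fun n d hn =>
    Nat.le_of_dvd (Nat.gcd_pos_of_pos_left _ hn)
      (Nat.gcd_dvd_gcd_of_dvd_right _ (pow_dvd_pow a (Nat.sub_le n d)))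
  constructor
  · intro n d v hU hN hD
    obtain ⟨h1, h2, h3, h4⟩ := key n d v hU hN hD
    exact ⟨h2, h3, h4 _ (hG n d h1)⟩
  · intro η hη
    obtain ⟨S, hS3, hS⟩ := Pool.Agent.H81U.density a (by omega) η hη
    have hS' : (3 : ℝ) ≤ S := by exact_mod_cast hS3
    have hl : 1 < Real.logb 2 S := by
      rw [Real.lt_logb_iff_rpow_lt (by norm_num) (by linarith), Real.rpow_one]
      linarith
    refine ⟨1 - 1 / Real.logb 2 S, ?_, ?_, fun X => ?_⟩
    · rw [sub_pos, div_lt_one (by linarith)]
      exact hl
    · have : 0 < 1 / Real.logb 2 S := by positivity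
      linarith
    · refine le_trans ?_ (hS X)
      rw [Nat.cast_le]
      refine Finset.card_le_card fun n hn => ?_
      obtain ⟨hn1, d, v, hU, hN, hD, hd⟩ := Finset.mem_filter.1 hn
      refine Finset.mem_filter.2 ⟨hn1, ?_⟩
      by_contra hle
      push Not at hle
      obtain ⟨h1, h2, h3, h4⟩ := key n d v hU hN hD
      have h5 := h4 S ((hG n d h1).trans hle)
      have h6 : (1 - 1 / Real.logb 2 S) * (n : ℝ) = n - n / Real.logb 2 S := by ring
      rw [h6] at hd
      linarith

end Pool.Agent.Results.MP_1a637f_co.NearlyLinear
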